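import Pool.Agent.X235.Gas.Gen

set_option autoImplicit false

/-!
A computable graph on `ℕ` with computably bounded neighbourhoods and chromatic number two has a
computable proper colouring with four colours.
-/

namespace Pool.Agent.X235.Gas

open Encodable Nat.Partrec Pool.Agent.Helper446 Pool.Agent.Helper446.Defs
open Pool.Agent.Helper446.Oracle

theorem exists_selector {α β : Type} [Primcodable α] [Primcodable β] {r : α → β → Prop}
    (hr : REPred fun x : α × β => r x.1 x.2) (htot : ∀ a, ∃ b, r a b) :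
    ∃ f : α → β, Computable f ∧ ∀ a, r a (f a) := by
  obtain ⟨g, hg, h1, h2⟩ := RE.uniformize hr
  have hd : ∀ a, (g a).Dom := fun a => (h1 a).2 (htot a)
  refine ⟨fun a => (g a).get (hd a), hg.of_eq_tot fun a => Part.get_mem (hd a), fun a => ?_⟩
  exact h2 a _ (Part.get_mem (hd a))

theorem colour {G : SimpleGraph ℕ}
    (hadj : ComputablePred (fun p : ℕ × ℕ => G.Adj p.1 p.2))
    (hb : ComputablePred fun x : ℕ × ℕ => ∃ y, x.2 ≤ y ∧ G.Adj x.1 y)
    (hfin : ∀ x, ∃ n, ∀ y, n ≤ y → ¬ G.Adj x y)
    (hχ : G.chromaticNumber = 2) :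
    ∃ c : ℕ → ℕ, Computable c ∧ (∀ x, c x < 4) ∧ ∀ x y, G.Adj x y → c x ≠ c y := by
  -- a bound for neighbourhoods
  have hB : ∃ B : ℕ → ℕ, Computable B ∧ ∀ t, t < B t ∧ ∀ x < t, ¬ ∃ y, B t ≤ y ∧ G.Adj x y := by
    refine exists_selector (r := fun t m => t < m ∧ ∀ x < t, ¬ ∃ y, m ≤ y ∧ G.Adj x y) ?_ ?_
    · refine RE.and (RE.lt (by fun_prop) (by fun_prop)) ?_
      refine RE.all_lt (p := fun (z : ℕ × ℕ) x => ¬ ∃ y, z.2 ≤ y ∧ G.Adj x y) ?_ (by fun_prop)
      exact RE.comp hb.not.to_re (f := fun z : (ℕ × ℕ) × ℕ => (z.2, z.1.2)) (by fun_prop)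
    · intro t
      choose n hn using hfin
      refine ⟨t + 1 + ((List.range t).map n).sum, by omega, fun x hx => ?_⟩
      rintro ⟨y, hy1, hy2⟩
      have : n x ≤ ((List.range t).map n).sum :=
        List.single_le_sum (fun _ _ => Nat.zero_le _) _
          (List.mem_map.2 ⟨x, List.mem_range.2 hx, rfl⟩)
      exact hn x y (by omega) hy2
  obtain ⟨B, hBc, hB⟩ := hB
  let t : ℕ → ℕ := fun i => Nat.rec (motive := fun _ => ℕ) 0 (fun _ y => B y) i
  have ht : Computable t := by
    exact Computable.nat_rec (f := fun i : ℕ => i) (g := fun _ => 0)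
      (h := fun _ y => B y.2) Computable.id (Computable.const 0)
      (hBc.comp (Computable.snd.comp Computable.snd))
  have ht0 : t 0 = 0 := rfl
  have hts : ∀ i, t (i + 1) = B (t i) := fun i => rfl
  have hmono : StrictMono t := strictMono_nat_of_lt_succ fun i => (hB (t i)).1
  have hle : ∀ i, i ≤ t i := fun i => hmono.le_apply
  obtain ⟨lev, hlevc, hlev⟩ := exists_selector
    (r := fun (x i : ℕ) => t i ≤ x ∧ x < t (i + 1)) (by
      refine RE.and (RE.le ?_ ?_) (RE.lt ?_ ?_)
      · exact ht.comp Computable.snd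
      · fun_prop
      · fun_prop
      · exact ht.comp (g := fun z : ℕ × ℕ => z.2 + 1) (by fun_prop)) (by
      intro x
      have h1 : ∃ i, x < t (i + 1) := ⟨x, lt_of_lt_of_le (Nat.lt_succ_self x) (hle _)⟩
      classical
      refine ⟨Nat.find h1, ?_, Nat.find_spec h1⟩
      rcases Nat.eq_zero_or_pos (Nat.find h1) with h2 | h2
      · rw [h2]; exact Nat.zero_le _
      · have h3 := Nat.find_min h1 (m := Nat.find h1 - 1) (by omega)
        rw [show Nat.find h1 - 1 + 1 = Nat.find h1 by omega] at h3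
        omega)
  have hcol : G.Colorable 2 := by
    apply SimpleGraph.chromaticNumber_le_iff_colorable.1
    rw [hχ]; rfl
  obtain ⟨h, hhc, hh⟩ := exists_selector
    (r := fun (T : ℕ) (l : List Bool) => l.length = T ∧
      ∀ x < T, ∀ y < T, (¬ G.Adj x y) ∨ l[x]? ≠ l[y]?) (by
      refine RE.and (RE.eq (by fun_prop) (by fun_prop)) ?_
      refine RE.all_lt (p := fun (z : ℕ × List Bool) x => ∀ y < z.1, (¬ G.Adj x y) ∨
        z.2[x]? ≠ z.2[y]?) ?_ (by fun_prop)
      refine RE.all_lt (p := fun (z : (ℕ × List Bool) × ℕ) y => (¬ G.Adj z.2 y) ∨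
        z.1.2[z.2]? ≠ z.1.2[y]?) ?_ (by fun_prop)
      refine RE.or ?_ (RE.ne (by fun_prop) (by fun_prop))
      exact RE.comp hadj.not.to_re (f := fun z : ((ℕ × List Bool) × ℕ) × ℕ => (z.1.2, z.2))
        (by fun_prop)) (by
      intro T
      obtain ⟨C⟩ := hcol
      refine ⟨(List.range T).map fun x => decide (C x = 0), by simp, fun x hx y hy => ?_⟩
      by_cases hxy : G.Adj x y
      · right
        have h1 : C x ≠ C y := C.valid hxy
        rw [List.getElem?_map, List.getElem?_map, List.getElem?_range hx, List.getElem?_range hy]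
        simp only [Option.map_some, ne_eq, Option.some.injEq]
        intro h2
        apply h1
        have h3 : C x = 0 ↔ C y = 0 := by simpa using h2
        have h4 : ∀ a b : Fin 2, (a = 0 ↔ b = 0) → a = b := by decide
        exact h4 _ _ h3
      · exact Or.inl hxy)
  refine ⟨fun x => 2 * (lev x % 2) + (if (h (t (lev x + 1)))[x]? = some true then 1 else 0),
    ?_, ?_, ?_⟩
  · have h1 : Computable fun x : ℕ => h (t (lev x + 1)) :=
      hhc.comp (ht.comp (Primrec.succ.to_comp.comp hlevc))
    have h2 : Computable fun x : ℕ => (h (t (lev x + 1)))[x]? := by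
      exact Computable.list_getElem?.comp h1 Computable.id
    have h3 : Computable fun x : ℕ => (if (h (t (lev x + 1)))[x]? = some true then 1 else 0) :=
      RE.cite (RE.cp_eq h2 (by fun_prop)) (by fun_prop) (by fun_prop)
    have h4 : Computable fun x : ℕ => 2 * (lev x % 2) :=
      Primrec.nat_mul.to_comp.comp (Computable.const 2)
        (Primrec.nat_mod.to_comp.comp hlevc (Computable.const 2))
    exact Primrec.nat_add.to_comp.comp h4 h3
  · intro x
    dsimp only
    split_ifs <;> omega
  · intro x y hxy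
    have key : ∀ x y, G.Adj x y → lev y ≤ lev x + 1 := by
      intro x y hxy
      have h1 := (hB (t (lev x + 1))).2 x (hlev x).2
      have h2 : y < t (lev x + 2) := by
        by_contra hcon
        exact h1 ⟨y, Nat.le_of_not_lt hcon, hxy⟩
      have h3 : t (lev y) < t (lev x + 2) := lt_of_le_of_lt (hlev y).1 h2
      have h4 : lev y < lev x + 2 := (StrictMono.lt_iff_lt hmono).1 h3
      omega
    have h1 := key x y hxy
    have h2 := key y x hxy.symm
    dsimp only
    by_cases hl : lev x = lev y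
    · rw [hl]
      have h3 := hh (t (lev y + 1))
      have hx : x < t (lev y + 1) := by rw [← hl]; exact (hlev x).2
      have hy : y < t (lev y + 1) := (hlev y).2
      have h4 := (h3.2 x hx y hy).resolve_left (fun h => h hxy)
      have hx' : x < (h (t (lev y + 1))).length := by rw [h3.1]; exact hx
      have hy' : y < (h (t (lev y + 1))).length := by rw [h3.1]; exact hy
      rw [List.getElem?_eq_getElem hx', List.getElem?_eq_getElem hy'] at h4 ⊢
      simp only [Option.some.injEq, ne_eq] at h4 ⊢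
      rcases hbx : (h (t (lev y + 1)))[x] with _ | _ <;>
        rcases hby : (h (t (lev y + 1)))[y] with _ | _ <;> simp_all
    · have h3 : lev x % 2 ≠ lev y % 2 := by omega
      split_ifs <;> omega

theorem encode_finset (F : Finset ℕ) :
    ∃ l : List ℕ, encode F = encode l ∧ ∀ y, y ∈ l ↔ y ∈ F :=
  ⟨F.val.sort (Encodable.encode' ℕ ⁻¹'o (· ≤ ·)), rfl, fun y => by simp⟩

theorem contra {G : SimpleGraph ℕ}
    (hadj : ComputablePred (fun p : ℕ × ℕ => G.Adj p.1 p.2))
    (N : ℕ → Finset ℕ) (hN : ∀ x y : ℕ, G.Adj x y ↔ y ∈ N x)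
    (hT : TuringReducible (fun x : ℕ => Part.some (Encodable.encode (N x))) (chi AA))
    (hχ : G.chromaticNumber = 2) :
    ∃ c : ℕ → ℕ, Computable c ∧ (∀ x, c x < 4) ∧ ∀ x y, G.Adj x y → c x ≠ c y := by
  refine colour hadj ?_ ?_ hχ
  · refine co_ce ?_ ?_
    · refine RE.ex (p := fun (x : ℕ × ℕ) (y : ℕ) => x.2 ≤ y ∧ G.Adj x.1 y) ?_
      refine RE.and (RE.le (by fun_prop) (by fun_prop)) ?_
      exact RE.comp hadj.to_re (f := fun z : (ℕ × ℕ) × ℕ => (z.1.1, z.2)) (by fun_prop)
    · have h1 := turingReducible_fun_iff.1 hT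
      have h2 : REIn AA fun x : ℕ × ℕ => ∃ l : List ℕ, encode (N x.1) = encode l ∧
          ∀ y ∈ l, y < x.2 := by
        refine REIn.ex (S := fun (x : ℕ × ℕ) (l : List ℕ) => encode (N x.1) = encode l ∧
          ∀ y ∈ l, y < x.2) ?_
        refine REIn.and ?_ (REIn.of_re ?_)
        · exact h1.comp (f := fun z : (ℕ × ℕ) × List ℕ => (z.1.1, encode z.2)) (by fun_prop)
        · exact RE.all_mem (p := fun (z : (ℕ × ℕ) × List ℕ) y => y < z.1.2)
            (RE.lt (by fun_prop) (by fun_prop)) (by fun_prop)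
      refine h2.of_eq fun x => ?_
      constructor
      · rintro ⟨l, h3, h4⟩ ⟨y, h5, h6⟩
        obtain ⟨l', h7, h8⟩ := encode_finset (N x.1)
        have h9 : l' = l := encode_injective (h7.symm.trans h3)
        subst h9
        have := h4 y ((h8 y).2 ((hN _ _).1 h6))
        omega
      · intro h3
        obtain ⟨l', h7, h8⟩ := encode_finset (N x.1)
        refine ⟨l', h7, fun y hy => ?_⟩
        by_contra hcon
        exact h3 ⟨y, by omega, (hN _ _).2 ((h8 y).1 hy)⟩
  · intro x
    refine ⟨(N x).sum id + 1, fun y hy hxy => ?_⟩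
    have := Finset.single_le_sum (f := id) (fun _ _ => Nat.zero_le _) ((hN x y).1 hxy)
    simp only [id] at this
    simp only [id] at hy
    omega

end Pool.Agent.X235.Gas
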