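import Pool.Agent.Helper446.Oracle

set_option autoImplicit false

/-!
A noncomputable set `A` below the halting set such that every c.e. set computable from `A` is
computable (a 1-generic set below the halting problem).
-/

namespace Pool.Agent.X235.Gas

open Encodable Nat.Partrec Pool.Agent.Helper446 Pool.Agent.Helper446.Defs
open Pool.Agent.Helper446.Oracle

/-- The halting set, with the coding of the frozen statement. -/
def KK : Set ℕ := {n | ((Denumerable.ofNat Nat.Partrec.Code n).eval n).Dom}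

theorem re_reduce {α : Type} [Primcodable α] {p : α → Prop} (hp : REPred p) :
    ∃ g : α → ℕ, Computable g ∧ ∀ a, p a ↔ g a ∈ KK := by
  obtain ⟨c, hc⟩ := Nat.Partrec.Code.exists_code.1 hp
  refine ⟨fun a => encode (Code.comp c (Code.const (encode a))), ?_, fun a => ?_⟩
  · exact Computable.encode.comp ((Code.primrec₂_comp.comp (Primrec.const c)
      (Code.primrec_const.comp Primrec.encode)).to_comp)
  · have h1 : Code.eval c (encode a) =
        (Part.assert (p a) fun _ => Part.some ()).map encode := by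
      rw [hc]; simp
    have h2 : p a ↔ (Code.eval c (encode a)).Dom := by
      rw [h1]
      simp only [Part.map_Dom]
      constructor
      · intro h; exact ⟨h, trivial⟩
      · rintro ⟨h, -⟩; exact h
    rw [h2]
    show _ ↔ ((Denumerable.ofNat Nat.Partrec.Code _).eval _).Dom
    rw [Denumerable.ofNat_encode]
    show _ ↔ ((Code.const (encode a)).eval _ >>= c.eval).Dom
    rw [Code.eval_const]
    exact iff_of_eq (congrArg Part.Dom (Part.bind_some (encode a) c.eval).symm)

theorem rein_not_re {α : Type} [Primcodable α] {p : α → Prop} (hp : REPred p) :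
    REIn KK fun a => ¬ p a := by
  obtain ⟨g, hg, h⟩ := re_reduce hp
  exact (REIn.not_mem hg).of_eq fun a => (not_congr (h a)).symm

theorem re_graph {α β : Type} [Primcodable α] [Primcodable β] {f : α →. β} (hf : Partrec f) :
    REPred fun x : α × β => x.2 ∈ f x.1 := by
  have h : Partrec fun x : α × β => (f x.1).bind
      fun b => (Part.assert (b = x.2) fun _ => Part.some ()) := by
    refine Partrec.bind (hf.comp Computable.fst) ?_
    exact RE.eq (f := fun y : (α × β) × β => y.2) (g := fun y => y.1.2) Computable.snd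
      (Computable.snd.comp Computable.fst)
  refine h.dom_re.of_eq fun x => ?_
  simp only [Part.bind_dom]
  constructor
  · rintro ⟨h1, h2, -⟩
    rw [← h2]; exact Part.get_mem h1
  · intro h1
    obtain ⟨h2, h3⟩ := h1
    exact ⟨h2, h3, trivial⟩

abbrev Cond := List ℕ × List ℕ

/-- `τ` decides `c` positively. -/
def Dec (c : Cond) (τ : List Bool) : Prop :=
  (∀ x ∈ c.1, τ[x]? = some true) ∧ ∀ x ∈ c.2, τ[x]? = some false

theorem re_dec {α : Type} [Primcodable α] {f : α → Cond} {g : α → List Bool}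
    (hf : Computable f) (hg : Computable g) : REPred fun a => Dec (f a) (g a) := by
  refine RE.and ?_ ?_
  · exact RE.all_mem (p := fun a x => (g a)[x]? = some true) (l := fun a => (f a).1)
      (RE.eq (by fun_prop) (by fun_prop)) (by fun_prop)
  · exact RE.all_mem (p := fun a x => (g a)[x]? = some false) (l := fun a => (f a).2)
      (RE.eq (by fun_prop) (by fun_prop)) (by fun_prop)

/-- The requirement relation: `y.2` extends `y.1.2` and decides some member of the c.e. set of
conditions number `y.1.1`. -/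
def Req (a : ℕ × List Bool) (τ : List Bool) : Prop :=
  (∃ ρ : List Bool, ρ ≠ [] ∧ a.2 ++ ρ = τ) ∧
    ∃ x : ℕ × Cond, RE.wst Cond a.1 x.1 x.2 = true ∧ Dec x.2 τ

theorem re_req : REPred fun x : (ℕ × List Bool) × List Bool => Req x.1 x.2 := by
  refine RE.and ?_ ?_
  · refine RE.ex (p := fun (x : (ℕ × List Bool) × List Bool) (ρ : List Bool) =>
      ρ ≠ [] ∧ x.1.2 ++ ρ = x.2) ?_
    exact RE.and (RE.ne (by fun_prop) (by fun_prop)) (RE.eq (by fun_prop) (by fun_prop))
  · refine RE.ex (p := fun (y : (ℕ × List Bool) × List Bool) (x : ℕ × Cond) =>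
      RE.wst Cond y.1.1 x.1 x.2 = true ∧ Dec x.2 y.2) ?_
    refine RE.and (RE.of_bool ?_) (re_dec (by fun_prop) (by fun_prop))
    exact RE.wst_comp.comp (f := fun p : (ℕ × ℕ) × Cond => RE.wst Cond p.1.1 p.1.2 p.2)
      (g := fun x : ((ℕ × List Bool) × List Bool) × (ℕ × Cond) => ((x.1.1.1, x.2.1), x.2.2))
      (by fun_prop)

theorem exists_sel : ∃ f : ℕ × List Bool →. List Bool, Partrec f ∧
    (∀ a, (f a).Dom ↔ ∃ b, Req a b) ∧ ∀ a, ∀ b ∈ f a, Req a b :=
  RE.uniformize re_req

noncomputable def sel : ℕ × List Bool →. List Bool := Classical.choose exists_sel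

theorem sel_partrec : Partrec sel := (Classical.choose_spec exists_sel).1

theorem sel_dom (a : ℕ × List Bool) : (sel a).Dom ↔ ∃ b, Req a b :=
  (Classical.choose_spec exists_sel).2.1 a

theorem sel_req (a : ℕ × List Bool) (b : List Bool) (h : b ∈ sel a) : Req a b :=
  (Classical.choose_spec exists_sel).2.2 a b h

open Classical in
/-- The finite extension construction. -/
noncomputable def sq : ℕ → List Bool
  | 0 => []
  | e + 1 => if h : (sel (e, sq e)).Dom then (sel (e, sq e)).get h else sq e ++ [false]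

/-- One step. -/
def Step (a : ℕ × List Bool) (τ : List Bool) : Prop :=
  τ ∈ sel a ∨ (¬ (∃ b, Req a b) ∧ τ = a.2 ++ [false])

theorem sq_step (e : ℕ) : Step (e, sq e) (sq (e + 1)) := by
  unfold Step
  by_cases h : (sel (e, sq e)).Dom
  · left
    rw [sq, dif_pos h]; exact Part.get_mem h
  · right
    refine ⟨fun h2 => h ((sel_dom _).2 h2), ?_⟩
    rw [sq, dif_neg h]

theorem step_unique {a : ℕ × List Bool} {τ τ' : List Bool} (h : Step a τ) (h' : Step a τ') :
    τ = τ' := by
  rcases h with h | h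
  · rcases h' with h' | h'
    · exact Part.mem_unique h h'
    · exact absurd ⟨_, sel_req _ _ h⟩ h'.1
  · rcases h' with h' | h'
    · exact absurd ⟨_, sel_req _ _ h'⟩ h.1
    · rw [h.2, h'.2]

theorem rein_step : REIn KK fun x : (ℕ × List Bool) × List Bool => Step x.1 x.2 := by
  refine REIn.or (REIn.of_re (re_graph sel_partrec)) (REIn.and ?_ (REIn.of_re ?_))
  · refine rein_not_re (p := fun x : (ℕ × List Bool) × List Bool => ∃ b, Req x.1 b) ?_
    refine RE.ex (p := fun (x : (ℕ × List Bool) × List Bool) b => Req x.1 b) ?_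
    exact RE.comp re_req (f := fun x : ((ℕ × List Bool) × List Bool) × List Bool => (x.1.1, x.2))
      (by fun_prop)
  · exact RE.eq (by fun_prop) (by fun_prop)

theorem rein_sq : REIn KK fun x : ℕ × List Bool => sq x.1 = x.2 := by
  have h : REIn KK fun x : ℕ × List Bool => ∃ l : List (List Bool), l[0]? = some [] ∧
      (∀ i < x.1, ∃ u : List Bool × List Bool, l[i]? = some u.1 ∧ l[i + 1]? = some u.2 ∧
        Step (i, u.1) u.2) ∧ l[x.1]? = some x.2 := by
    refine REIn.ex (S := fun (x : ℕ × List Bool) (l : List (List Bool)) => l[0]? = some [] ∧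
      (∀ i < x.1, ∃ u : List Bool × List Bool, l[i]? = some u.1 ∧ l[i + 1]? = some u.2 ∧
        Step (i, u.1) u.2) ∧ l[x.1]? = some x.2) ?_
    refine REIn.and (REIn.of_re (RE.eq (by fun_prop) (by fun_prop))) (REIn.and ?_
      (REIn.of_re (RE.eq (by fun_prop) (by fun_prop))))
    refine REIn.all_lt (S := fun (y : (ℕ × List Bool) × List (List Bool)) (i : ℕ) =>
      ∃ u : List Bool × List Bool, y.2[i]? = some u.1 ∧ y.2[i + 1]? = some u.2 ∧
        Step (i, u.1) u.2) ?_ (by fun_prop)
    refine REIn.ex (S := fun (y : ((ℕ × List Bool) × List (List Bool)) × ℕ)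
      (u : List Bool × List Bool) => y.1.2[y.2]? = some u.1 ∧ y.1.2[y.2 + 1]? = some u.2 ∧
        Step (y.2, u.1) u.2) ?_
    refine REIn.and (REIn.of_re (RE.eq (by fun_prop) (by fun_prop)))
      (REIn.and (REIn.of_re (RE.eq (by fun_prop) (by fun_prop))) ?_)
    exact rein_step.comp (f := fun z : (((ℕ × List Bool) × List (List Bool)) × ℕ) ×
      (List Bool × List Bool) => ((z.1.2, z.2.1), z.2.2)) (by fun_prop)
  refine h.of_eq fun x => ?_
  constructor
  · rintro ⟨l, h0, h1, h2⟩
    have h3 : ∀ i, i ≤ x.1 → l[i]? = some (sq i) := by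
      intro i
      induction i with
      | zero => intro _; exact h0
      | succ i ih =>
        intro hi
        obtain ⟨u, hu1, hu2, hu3⟩ := h1 i (by omega)
        rw [ih (by omega)] at hu1
        have hu4 : u.1 = sq i := (Option.some.inj hu1).symm
        rw [hu4] at hu3
        rw [hu2, step_unique hu3 (sq_step i)]
    rw [h3 x.1 le_rfl] at h2
    exact Option.some.inj h2
  · intro h3
    refine ⟨(List.range (x.1 + 1)).map sq, ?_, ?_, ?_⟩
    · simp [sq]
    · intro i hi
      refine ⟨(sq i, sq (i + 1)), ?_, ?_, sq_step i⟩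
      · simp [List.getElem?_range (by omega : i < x.1 + 1)]
      · simp [List.getElem?_range (by omega : i + 1 < x.1 + 1)]
    · rw [← h3]; simp

theorem sq_prefix_succ (e : ℕ) : ∃ ρ : List Bool, ρ ≠ [] ∧ sq e ++ ρ = sq (e + 1) := by
  rcases sq_step e with h | h
  · exact (sel_req _ _ h).1
  · exact ⟨[false], by simp, h.2.symm⟩

theorem sq_length_lt (e : ℕ) : (sq e).length < (sq (e + 1)).length := by
  obtain ⟨ρ, h1, h2⟩ := sq_prefix_succ e
  rw [← h2, List.length_append]
  have : 0 < ρ.length := List.length_pos_iff.2 h1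
  omega

theorem le_sq_length (e : ℕ) : e ≤ (sq e).length := by
  induction e with
  | zero => simp
  | succ e ih => have := sq_length_lt e; omega

theorem sq_prefix {e e' : ℕ} (h : e ≤ e') : sq e <+: sq e' := by
  induction e', h using Nat.le_induction with
  | base => exact List.prefix_refl _
  | succ n _ ih =>
    obtain ⟨ρ, _, h2⟩ := sq_prefix_succ n
    exact ih.trans ⟨ρ, h2⟩

theorem sq_getElem {e n : ℕ} {b : Bool} (h : (sq e)[n]? = some b) {e' : ℕ} (he : e ≤ e') :
    (sq e')[n]? = some b := by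
  obtain ⟨ρ, h2⟩ := sq_prefix he
  rw [← h2]
  have hn : n < (sq e).length := by
    by_contra hcon
    rw [List.getElem?_eq_none (by omega)] at h
    cases h
  rw [List.getElem?_append_left hn, h]

/-- The generic set. -/
def AA : Set ℕ := {n | (sq (n + 1))[n]? = some true}

theorem mem_AA {e n : ℕ} {b : Bool} (h : (sq e)[n]? = some b) : n ∈ AA ↔ b = true := by
  have hn : n < (sq (n + 1)).length := le_sq_length (n + 1)
  have h1 : (sq (n + 1))[n]? = some (sq (n + 1))[n] := List.getElem?_eq_getElem hn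
  have h2 : (sq (n + 1))[n]? = some b := by
    rcases le_total e (n + 1) with h3 | h3
    · exact sq_getElem h h3
    · have := sq_getElem h1 h3
      rw [h1, ← this, h]
  show (sq (n + 1))[n]? = some true ↔ _
  rw [h2]
  simp

theorem rein_AA : REIn KK (· ∈ AA) := by
  have h : REIn KK fun n : ℕ => ∃ τ : List Bool, sq (n + 1) = τ ∧ τ[n]? = some true := by
    refine REIn.ex (S := fun (n : ℕ) (τ : List Bool) => sq (n + 1) = τ ∧ τ[n]? = some true) ?_
    refine REIn.and ?_ (REIn.of_re (RE.eq (by fun_prop) (by fun_prop)))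
    exact rein_sq.comp (f := fun x : ℕ × List Bool => (x.1 + 1, x.2)) (by fun_prop)
  refine h.of_eq fun n => ?_
  constructor
  · rintro ⟨τ, rfl, h⟩; exact h
  · intro h; exact ⟨_, rfl, h⟩

theorem rein_not_AA : REIn KK (· ∉ AA) := by
  have h : REIn KK fun n : ℕ => ∃ τ : List Bool, sq (n + 1) = τ ∧ τ[n]? ≠ some true := by
    refine REIn.ex (S := fun (n : ℕ) (τ : List Bool) => sq (n + 1) = τ ∧ τ[n]? ≠ some true) ?_
    refine REIn.and ?_ (REIn.of_re (RE.ne (by fun_prop) (by fun_prop)))
    exact rein_sq.comp (f := fun x : ℕ × List Bool => (x.1 + 1, x.2)) (by fun_prop)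
  refine h.of_eq fun n => ?_
  constructor
  · rintro ⟨τ, rfl, h⟩; exact h
  · intro h; exact ⟨_, rfl, h⟩

theorem AA_le : TuringReducible (chi AA) (chi KK) :=
  turingReducible_iff.2 ⟨rein_AA, rein_not_AA⟩

/-- Long initial segments of `AA` decide every correct condition. -/
theorem exists_dec {c : Cond} (h : Ok AA c) (e : ℕ) : ∃ e', e < e' ∧ Dec c (sq e') := by
  let m := (c.1 ++ c.2).sum + e + 1
  have hm : ∀ x ∈ c.1 ++ c.2, x < m := by
    intro x hx
    have := List.single_le_sum (l := c.1 ++ c.2) (fun _ _ => Nat.zero_le _) x hx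
    omega
  have key : ∀ x < m, ∃ b, (sq m)[x]? = some b ∧ (x ∈ AA ↔ b = true) := by
    intro x hx
    have h1 : x < (sq m).length := lt_of_lt_of_le hx (le_sq_length m)
    exact ⟨_, List.getElem?_eq_getElem h1, mem_AA (List.getElem?_eq_getElem h1)⟩
  refine ⟨m, by omega, ?_, ?_⟩
  · intro x hx
    obtain ⟨b, h1, h2⟩ := key x (hm x (List.mem_append_left _ hx))
    rw [h1, h2.1 (h.1 x hx)]
  · intro x hx
    obtain ⟨b, h1, h2⟩ := key x (hm x (List.mem_append_right _ hx))
    have h3 : b = false := by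
      by_contra hcon
      exact h.2 x hx (h2.2 (by simpa using hcon))
    rw [h1, h3]

/-- Genericity. -/
theorem generic {S : Cond → Prop} (hS : REPred S) :
    (∃ c, S c ∧ Ok AA c) ∨
    ∃ e, ∀ ρ : List Bool, ρ ≠ [] → ∀ c, S c → ¬ Dec c (sq e ++ ρ) := by
  obtain ⟨e, he⟩ := RE.wst_univ hS
  by_cases h : ∃ b, Req (e, sq e) b
  · left
    have h1 : sq (e + 1) ∈ sel (e, sq e) := by
      rcases sq_step e with h2 | h2
      · exact h2
      · exact absurd h h2.1
    obtain ⟨-, x, hx1, hx2⟩ := sel_req _ _ h1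
    refine ⟨x.2, (he _).2 ⟨_, hx1⟩, ?_, ?_⟩
    · intro y hy
      exact (mem_AA (hx2.1 y hy)).2 rfl
    · intro y hy
      rw [mem_AA (hx2.2 y hy)]; simp
  · right
    refine ⟨e, fun ρ hρ c hc hd => h ⟨_, ⟨ρ, hρ, rfl⟩, ?_⟩⟩
    obtain ⟨s, hs⟩ := (he c).1 hc
    exact ⟨(s, c), hs, hd⟩

/-- Every c.e. set whose complement is c.e. in `AA` is computable. -/
theorem co_ce {α : Type} [Primcodable α] {C : α → Prop} (h1 : REPred C)
    (h2 : REIn AA fun a => ¬ C a) : ComputablePred C := by
  obtain ⟨R, hR, hA⟩ := h2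
  have hS : REPred fun c : Cond => ∃ a : α, C a ∧ R a c := by
    refine RE.ex (p := fun (c : Cond) (a : α) => C a ∧ R a c) ?_
    refine RE.and (RE.comp h1 (by fun_prop)) ?_
    exact RE.comp hR (f := fun x : Cond × α => (x.2, x.1)) (by fun_prop)
  rcases generic hS with h | h
  · exfalso
    obtain ⟨c, ⟨a, ha1, ha2⟩, hc⟩ := h
    exact (hA a).2 ⟨c, ha2, hc⟩ ha1
  · obtain ⟨e, he⟩ := h
    refine RE.cp_of_re h1 ?_
    have h3 : REPred fun a : α => ∃ x : Cond × List Bool, R a x.1 ∧ x.2 ≠ [] ∧
        Dec x.1 (sq e ++ x.2) := by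
      refine RE.ex (p := fun (a : α) (x : Cond × List Bool) => R a x.1 ∧ x.2 ≠ [] ∧
        Dec x.1 (sq e ++ x.2)) ?_
      refine RE.and ?_ (RE.and (RE.ne (by fun_prop) (by fun_prop))
        (re_dec (by fun_prop) (by fun_prop)))
      exact RE.comp hR (f := fun x : α × (Cond × List Bool) => (x.1, x.2.1)) (by fun_prop)
    refine h3.of_eq fun a => ?_
    constructor
    · rintro ⟨⟨c, ρ⟩, h4, h5, h6⟩ ha
      exact he ρ h5 c ⟨a, ha, h4⟩ h6
    · intro ha
      obtain ⟨c, hc1, hc2⟩ := (hA a).1 ha
      obtain ⟨e', h4, h5⟩ := exists_dec hc2 e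
      obtain ⟨ρ, hρ⟩ := sq_prefix h4.le
      refine ⟨(c, ρ), hc1, ?_, ?_⟩
      · rintro rfl
        have h6 : ∀ k, (sq e).length < (sq (e + 1 + k)).length := by
          intro k
          induction k with
          | zero => exact sq_length_lt e
          | succ k ih => have := sq_length_lt (e + 1 + k); exact lt_trans ih this
        have h7 := h6 (e' - (e + 1))
        rw [show e + 1 + (e' - (e + 1)) = e' by omega, ← hρ] at h7
        simp at h7
      · rw [hρ]; exact h5

theorem AA_not_computable : ¬ ComputablePred (fun n : ℕ => n ∈ AA) := by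
  intro hcomp
  have h1 : REPred fun n : ℕ => n ∈ AA := hcomp.to_re
  have h2 : REPred fun n : ℕ => n ∉ AA := hcomp.not.to_re
  have hS : REPred fun c : Cond => (∃ n ∈ c.1, n ∉ AA) ∨ ∃ n ∈ c.2, n ∈ AA := by
    refine RE.or ?_ ?_
    · exact RE.ex_mem (p := fun (_ : Cond) n => n ∉ AA) (RE.comp h2 (by fun_prop)) (by fun_prop)
    · exact RE.ex_mem (p := fun (_ : Cond) n => n ∈ AA) (RE.comp h1 (by fun_prop)) (by fun_prop)
  rcases generic hS with h | h
  · obtain ⟨c, hc | hc, h3⟩ := h
    · obtain ⟨n, hn1, hn2⟩ := hc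
      exact hn2 (h3.1 n hn1)
    · obtain ⟨n, hn1, hn2⟩ := hc
      exact h3.2 n hn1 hn2
  · obtain ⟨e, he⟩ := h
    have hlen : (sq e ++ [true])[(sq e).length]? = some true := by simp
    have hlen2 : (sq e ++ [false])[(sq e).length]? = some false := by simp
    by_cases hA : (sq e).length ∈ AA
    · refine he [false] (by simp) ([], [(sq e).length]) (Or.inr ⟨_, by simp, hA⟩) ⟨?_, ?_⟩
      · intro x hx; simp at hx
      · intro x hx
        simp only [List.mem_singleton] at hx
        rw [hx]; exact hlen2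
    · refine he [true] (by simp) ([(sq e).length], []) (Or.inl ⟨_, by simp, hA⟩) ⟨?_, ?_⟩
      · intro x hx
        simp only [List.mem_singleton] at hx
        rw [hx]; exact hlen
      · intro x hx; simp at hx

end Pool.Agent.X235.Gas
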